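import Mathlib

/-!
# A 3-equilateral 9-gon spanning three-dimensional Euclidean space

We disprove the second part (Q2) of the conjecture: for `k = 2` and the odd number
`n = 9 > 2 * k + 1` there is a `(k + 1)`-equilateral `n`-gon which spans `E ^ (2 * k - 1)`.

With `s = √3` the nine vertices, in cyclic order, are

`(2s, 0, 0), (-2s, 0, 2), (s, -3, -2), (-s, 3, 0), (s, -3, 2), (s, 3, -2), (-s, -3, 0),
(s, 3, 2), (-2s, 0, -2)`.

The squared distances at cyclic steps `1`, `2`, `3` are `52`, `16`, `36`.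
-/

namespace Pool.Agent.Results.MP_fb0157_co.ThreeEquilateralNineGon

/-- An `n`-gon in `E ^ d` is a cyclically ordered tuple `x : ZMod n → E ^ d`.
It is `k`-equilateral if for each `j = 1, …, k` the distance between `x i` and `x (i + j)`
is the same number `c j` for every `i`. -/
def IsKEquilateral (k : ℕ) {n d : ℕ} (x : ZMod n → EuclideanSpace ℝ (Fin d)) : Prop :=
  ∃ c : ℕ → ℝ, ∀ j : ℕ, 1 ≤ j → j ≤ k → ∀ i : ZMod n, dist (x i) (x (i + (j : ZMod n))) = c j

/-- The `n`-gon `x` in `E ^ d` spans `E ^ d`: the affine hull of its vertices is the whole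
space (has dimension exactly `d`). -/
def Spans {n d : ℕ} (x : ZMod n → EuclideanSpace ℝ (Fin d)) : Prop :=
  affineSpan ℝ (Set.range x) = ⊤

/-- The coordinates of the nine vertices (the first one has to be multiplied by `√3`). -/
def co : ZMod 9 → Fin 3 → ℤ :=
  ![![2, 0, 0], ![-2, 0, 2], ![1, -3, -2], ![-1, 3, 0], ![1, -3, 2], ![1, 3, -2],
    ![-1, -3, 0], ![1, 3, 2], ![-2, 0, -2]]

/-- The `9`-gon. -/
noncomputable def gon (i : ZMod 9) : EuclideanSpace ℝ (Fin 3) :=
  !₂[(co i 0 : ℝ) * √3, (co i 1 : ℝ), (co i 2 : ℝ)]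

theorem dist_gon (i j : ZMod 9) :
    dist (gon i) (gon j) = √(((3 * (co i 0 - co j 0) ^ 2 + (co i 1 - co j 1) ^ 2 +
      (co i 2 - co j 2) ^ 2 : ℤ) : ℝ)) := by
  rw [EuclideanSpace.dist_eq]
  congr 1
  have h3 : (√3 : ℝ) ^ 2 = 3 := Real.sq_sqrt (by norm_num)
  simp only [gon, Fin.sum_univ_three, Real.dist_eq, sq_abs]
  simp
  have : ((co i 0 : ℝ) * √3 - (co j 0 : ℝ) * √3) ^ 2 =
      ((co i 0 : ℝ) - (co j 0 : ℝ)) ^ 2 * (√3) ^ 2 := by ring
  rw [this, h3]
  ring

theorem step1 : ∀ i : ZMod 9, 3 * (co i 0 - co (i + 1) 0) ^ 2 + (co i 1 - co (i + 1) 1) ^ 2 +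
      (co i 2 - co (i + 1) 2) ^ 2 = 52 := by decide

theorem step2 : ∀ i : ZMod 9, 3 * (co i 0 - co (i + 2) 0) ^ 2 + (co i 1 - co (i + 2) 1) ^ 2 +
      (co i 2 - co (i + 2) 2) ^ 2 = 16 := by decide

theorem step3 : ∀ i : ZMod 9, 3 * (co i 0 - co (i + 3) 0) ^ 2 + (co i 1 - co (i + 3) 1) ^ 2 +
      (co i 2 - co (i + 3) 2) ^ 2 = 36 := by decide

theorem gon_equilateral : IsKEquilateral 3 gon := by
  refine ⟨fun j => if j = 1 then √((52 : ℤ) : ℝ) else if j = 2 then √((16 : ℤ) : ℝ)
    else √((36 : ℤ) : ℝ), ?_⟩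
  intro j h1 h3 i
  rw [dist_gon]
  interval_cases j
  · have := step1 i
    simp only [Nat.cast_one, this]
    simp
  · have := step2 i
    simp only [Nat.cast_ofNat, this]
    simp
  · have := step3 i
    simp only [Nat.cast_ofNat, this]
    simp

theorem co_injective : ∀ i j : ZMod 9, 3 * (co i 0 - co j 0) ^ 2 + (co i 1 - co j 1) ^ 2 +
    (co i 2 - co j 2) ^ 2 ≤ 0 → i = j := by decide

theorem gon_injective : Function.Injective gon := by
  intro i j h
  have h0 : dist (gon i) (gon j) = 0 := by rw [h, dist_self]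
  rw [dist_gon, Real.sqrt_eq_zero'] at h0
  exact co_injective i j (by exact_mod_cast h0)

theorem gon_span : Spans gon := by
  unfold Spans
  rw [AffineSubspace.affineSpan_eq_top_iff_vectorSpan_eq_top_of_nonempty ℝ _ _
    (Set.range_nonempty gon)]
  rw [eq_top_iff]
  intro v _
  have h3 : (√3 : ℝ) * √3 = 3 := Real.mul_self_sqrt (by norm_num)
  have h3' : (√3 : ℝ) ≠ 0 := by positivity
  have key : ∀ i j : ZMod 9, gon i - gon j ∈ vectorSpan ℝ (Set.range gon) := fun i j =>
    vsub_mem_vectorSpan ℝ (Set.mem_range_self i) (Set.mem_range_self j)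
  have e3 := key 4 2
  have e2 := key 7 4
  have e1 := key 0 6
  have : v = (v 0 / (3 * √3)) • (gon 0 - gon 6) +
      (v 1 / 6 - v 0 / (6 * √3)) • (gon 7 - gon 4) + (v 2 / 4) • (gon 4 - gon 2) := by
    ext t
    fin_cases t
    · have a0 : co 0 0 = 2 := by decide
      have a6 : co 6 0 = -1 := by decide
      have a7 : co 7 0 = 1 := by decide
      have a4 : co 4 0 = 1 := by decide
      have a2 : co 2 0 = 1 := by decide
      simp [gon, a0, a6, a7, a4, a2]
      field_simp
      ring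
    · have a0 : co 0 1 = 0 := by decide
      have a6 : co 6 1 = -3 := by decide
      have a7 : co 7 1 = 3 := by decide
      have a4 : co 4 1 = -3 := by decide
      have a2 : co 2 1 = -3 := by decide
      simp [gon, a0, a6, a7, a4, a2]
      field_simp
      ring
    · have a0 : co 0 2 = 0 := by decide
      have a6 : co 6 2 = 0 := by decide
      have a7 : co 7 2 = 2 := by decide
      have a4 : co 4 2 = 2 := by decide
      have a2 : co 2 2 = -2 := by decide
      simp [gon, a0, a6, a7, a4, a2]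
      ring
  rw [this]
  exact Submodule.add_mem _ (Submodule.add_mem _ (Submodule.smul_mem _ _ e1)
    (Submodule.smul_mem _ _ e2)) (Submodule.smul_mem _ _ e3)

/-- The negated form of Q2: for some `k ≥ 2` and some odd `n > 2 * k + 1` there is a
`(k + 1)`-equilateral `n`-gon in `E ^ (2 * k - 1)` (even with pairwise distinct vertices) whose
vertices affinely span `E ^ (2 * k - 1)`. -/
theorem result : ∃ k n : ℕ, 2 ≤ k ∧ Odd n ∧ 2 * k + 1 < n ∧
    ∃ x : ZMod n → EuclideanSpace ℝ (Fin (2 * k - 1)),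
      Function.Injective x ∧ IsKEquilateral (k + 1) x ∧ Spans x :=
  ⟨2, 9, le_refl 2, ⟨4, rfl⟩, by norm_num, gon, gon_injective, gon_equilateral, gon_span⟩

end Pool.Agent.Results.MP_fb0157_co.ThreeEquilateralNineGon
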